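import Pool.Agent.Run7.h812.Simp.Main
import Pool.Agent.Run7.h812.Simp.Exist

/-! The continuous theory of the hyperfinite II_1 factor is not simple. -/

open Pool.Agent.H504R3.S Run7.h812.Simp

namespace Pool.Agent.Results.MP_baa3fb_lc.ThRNotSimple

/-- The hyperfinite II_1 factor `R` exists, and its continuous theory is not simple: there are a
tracial von Neumann algebra `M` which is elementarily equivalent to `R`, a subset `B` of `M` and a
type over `B` which divides over every separable subset of `B`. -/
theorem result : (∃ R : Str, R.IsHyperfinite) ∧ ∀ R : Str, R.IsHyperfinite → ¬ IsSimple R :=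
  ⟨exists_hyp, main⟩

end Pool.Agent.Results.MP_baa3fb_lc.ThRNotSimple
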